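import Mathlib
import Pool.Agent.Lead.TB.Defs
import Pool.Agent.Helper41.Perm.Defs

/-!
# Project TL (MP_56afde): empty boxes of random Latin squares, the bound `n ^ 2 log n`. Definitions

As in project TB, a Latin square of order `n` is a family of `n` pairwise disjoint permutations
`L s : row ↦ column` (`s` runs over the symbols), `ls n` is the set of all of them, and `Gr n` are
the bipartite graphs between rows and columns.
-/

set_option autoImplicit false

namespace Pool.Agent.Helper84.TL

open Finset Pool.Agent.Lead.TB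

/-- The expectation of `f A` for a random subset `A` of `X` which contains every element of `X`
with probability `τ`, independently. -/
noncomputable def Eb {α : Type} [DecidableEq α] (X : Finset α) (τ : ℝ) (f : Finset α → ℝ) : ℝ :=
  ∑ A ∈ X.powerset, τ ^ A.card * (1 - τ) ^ (X.card - A.card) * f A

/-- The probability that the elements after a given element of an `n`-element set in a random
order are the elements of a given set with `k` elements. -/
noncomputable def wt (n k : ℕ) : ℝ := ((k.factorial : ℝ) * (n - 1 - k).factorial) / n.factorial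

/-- The number of rows in `U` adjacent to the column `w`. -/
def dg {n : ℕ} (G : Gr n) (U : Finset (Fin n)) (w : Fin n) : ℕ := (U.filter fun x => w ∈ G x).card

/-- The sum of `1 / dg` over the columns `w` adjacent to `v` which are matched into `U`. -/
noncomputable def Sv {n : ℕ} (G : Gr n) (σ : Equiv.Perm (Fin n)) (U : Finset (Fin n))
    (v : Fin n) : ℝ :=
  ∑ w ∈ (G v).filter (fun w => σ.symm w ∈ U), (1 : ℝ) / dg G U w

/-- The number of columns other than `σ v` adjacent to `v` which are matched into `U`. -/
def Kv {n : ℕ} (G : Gr n) (σ : Equiv.Perm (Fin n)) (U : Finset (Fin n)) (v : Fin n) : ℕ :=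
  ((G v).filter fun w => w ≠ σ v ∧ σ.symm w ∈ U).card

/-- The number of 4-cycles of `G` through `v` with two edges in `σ`. -/
def Bv {n : ℕ} (G : Gr n) (σ : Equiv.Perm (Fin n)) (v : Fin n) : ℕ :=
  (univ.filter fun x => x ≠ v ∧ σ x ∈ G v ∧ σ v ∈ G x).card

/-- The number of 4-cycles `v, σ x, x, w` of `G` with `w ≠ σ v`. -/
def Cv {n : ℕ} (G : Gr n) (σ : Equiv.Perm (Fin n)) (v : Fin n) : ℕ :=
  ∑ w ∈ (G v).erase (σ v), (univ.filter fun x => x ≠ v ∧ σ x ≠ w ∧ w ∈ G x ∧ σ x ∈ G v).card

/-- The cost of a perfect matching `σ` of a `j`-regular graph `G`. -/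
noncomputable def cost {n : ℕ} (j : ℕ) (G : Gr n) (σ : Equiv.Perm (Fin n)) : ℝ :=
  n * (Real.log j - 1 + 4 / j) + ∑ v, (19 / (j : ℝ) ^ 2 * Bv G σ v +
    96 * Real.log j / (j : ℝ) ^ 3 * Cv G σ v)

/-- The union of the permutations of `L` with index in `Y`. -/
def sg {n : ℕ} (L : Fin n → Equiv.Perm (Fin n)) (Y : Finset (Fin n)) : Gr n :=
  fun r => Y.image fun t => L t r

/-- The Latin squares which agree with `L` outside the symbols in `Y`. -/
def cls {n : ℕ} (L : Fin n → Equiv.Perm (Fin n)) (Y : Finset (Fin n)) :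
    Finset (Fin n → Equiv.Perm (Fin n)) :=
  (ls n).filter fun L' => ∀ s, s ∉ Y → L' s = L s

/-- The Latin squares in which the box `T₁ × T₂ × T₃` is empty. -/
def emp {n : ℕ} (T₁ T₂ T₃ : Finset (Fin n)) : Finset (Fin n → Equiv.Perm (Fin n)) :=
  (ls n).filter fun L => cnt L T₁ T₂ T₃ = 0

/-- The average of a function over the `m`-element subsets of `M`. -/
noncomputable def av' {n : ℕ} (M : Finset (Fin n)) (m : ℕ) (h : Finset (Fin n) → ℝ) : ℝ :=
  (∑ Y ∈ M.powersetCard m, h Y) / (M.card.choose m : ℝ)

end Pool.Agent.Helper84.TL
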