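import Pool.Agent.Helper84.TL.FinalOf
import Pool.Agent.Helper84.TL.Defs

/-!
# Project TL: the final statement, from the union bound
-/

set_option autoImplicit false

namespace Pool.Agent.Helper84.TL

open Finset Pool.Agent.Helper41.Perm Pool.Agent.Lead.TB

/-- An array whose largest empty box has volume greater than `x` has an empty box of volume
greater than `x`. -/
theorem exists_box_of_lt_eps {n : ℕ} (A : (Fin 3 → Fin n) → Bool) {x : ℝ} (hx0 : 0 ≤ x)
    (hx : x < (eps (d := 2) A : ℝ)) :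
    ∃ T : Fin 3 → Finset (Fin n), BoxEmpty (d := 2) A T ∧ x < ∏ i, ((T i).card : ℝ) := by
  classical
  have hpos : 0 < eps (d := 2) A := by
    have : (0 : ℝ) < (eps (d := 2) A : ℝ) := lt_of_le_of_lt hx0 hx
    exact_mod_cast this
  set F := Finset.univ.filter (fun T : Fin (2 + 1) → Finset (Fin n) => BoxEmpty A T) with hF
  have hne : F.Nonempty := by
    by_contra hcon
    rw [not_nonempty_iff_eq_empty] at hcon
    have h0 : eps (d := 2) A = 0 := by
      have h1 : eps (d := 2) A = F.sup (fun T => ∏ i, (T i).card) := by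
        unfold eps
        congr!
      rw [h1, hcon, sup_empty]
      rfl
    omega
  obtain ⟨T, hT, hTe⟩ := exists_mem_eq_sup F hne (fun T => ∏ i, (T i).card)
  have h1 : eps (d := 2) A = ∏ i, (T i).card := by
    rw [← hTe]
    unfold eps
    congr!
  rw [hF, mem_filter] at hT
  refine ⟨T, hT.2, ?_⟩
  rw [h1] at hx
  push_cast at hx
  exact hx

theorem final_of_union
    (hub : ∃ C : ℝ, ∀ n : ℕ, 1 ≤ n →
    (((ls n).filter fun σ => ∃ T₁ T₂ T₃ : Finset (Fin n), T₃.card ≤ T₁.card ∧ T₃.card ≤ T₂.card ∧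
        cnt σ T₁ T₂ T₃ = 0 ∧ C * (n : ℝ) ^ 2 * (1 + Real.log T₃.card) <
          (T₁.card : ℝ) * T₂.card * T₃.card).card : ℝ) ≤
      Real.exp (-n) / 3 * ((ls n).card : ℝ)) :
    ∃ C : ℝ, 0 < C ∧ ∀ n : ℕ, 1 ≤ n →
    ((Nat.card {A : (Fin 3 → Fin n) → Bool // IsPerm (d := 2) A ∧
        ∃ T : Fin 3 → Finset (Fin n), BoxEmpty (d := 2) A T ∧
          C * (n : ℝ) ^ 2 * (1 + Real.log (min (T 0).card (min (T 1).card (T 2).card) : ℕ)) <
            ∏ i, ((T i).card : ℝ)} : ℝ) ≤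
      Real.exp (-n) * (Nat.card {A : (Fin 3 → Fin n) → Bool // IsPerm (d := 2) A} : ℝ)) ∧
    ((Nat.card {A : (Fin 3 → Fin n) → Bool // IsPerm (d := 2) A ∧
        C * (n : ℝ) ^ 2 * (1 + Real.log n) < (eps (d := 2) A : ℝ)} : ℝ) ≤
      Real.exp (-n) * (Nat.card {A : (Fin 3 → Fin n) → Bool // IsPerm (d := 2) A} : ℝ)) := by
  classical
  obtain ⟨C, hC⟩ := hub
  have hlog : ∀ m : ℕ, 0 ≤ Real.log m := fun m => Real.log_natCast_nonneg m
  have key : ∀ n : ℕ, 1 ≤ n → (Nat.card {A : (Fin 3 → Fin n) → Bool // IsPerm (d := 2) A ∧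
        ∃ T : Fin 3 → Finset (Fin n), BoxEmpty (d := 2) A T ∧
          max C 1 * (n : ℝ) ^ 2 * (1 + Real.log (min (T 0).card (min (T 1).card (T 2).card) : ℕ)) <
            ∏ i, ((T i).card : ℝ)} : ℝ) ≤
      Real.exp (-n) * (Nat.card {A : (Fin 3 → Fin n) → Bool // IsPerm (d := 2) A} : ℝ) := by
    intro n hn
    refine final_of n (fun c => max C 1 * (n : ℝ) ^ 2 * (1 + Real.log c)) (Real.exp (-n)) ?_
      (Real.exp_pos _).le
    refine le_trans ?_ (hC n hn)
    have hsub : ((ls n).filter fun σ => ∃ T₁ T₂ T₃ : Finset (Fin n), T₃.card ≤ T₁.card ∧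
        T₃.card ≤ T₂.card ∧ cnt σ T₁ T₂ T₃ = 0 ∧
        max C 1 * (n : ℝ) ^ 2 * (1 + Real.log T₃.card) < (T₁.card : ℝ) * T₂.card * T₃.card) ⊆
        ((ls n).filter fun σ => ∃ T₁ T₂ T₃ : Finset (Fin n), T₃.card ≤ T₁.card ∧
        T₃.card ≤ T₂.card ∧ cnt σ T₁ T₂ T₃ = 0 ∧
        C * (n : ℝ) ^ 2 * (1 + Real.log T₃.card) < (T₁.card : ℝ) * T₂.card * T₃.card) := by
      intro σ hσ
      rw [mem_filter] at hσ ⊢
      obtain ⟨h1, T₁, T₂, T₃, h2, h3, h4, h5⟩ := hσ
      refine ⟨h1, T₁, T₂, T₃, h2, h3, h4, lt_of_le_of_lt ?_ h5⟩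
      have h6 := hlog T₃.card
      have h7 : C ≤ max C 1 := le_max_left _ _
      gcongr
    have hc := card_le_card hsub
    exact_mod_cast hc
  refine ⟨max C 1, lt_of_lt_of_le one_pos (le_max_right _ _), fun n hn => ⟨key n hn, ?_⟩⟩
  refine le_trans ?_ (key n hn)
  have hC0 : 0 < max C 1 := lt_of_lt_of_le one_pos (le_max_right _ _)
  have h1 : ∀ A : (Fin 3 → Fin n) → Bool, (IsPerm (d := 2) A ∧
        max C 1 * (n : ℝ) ^ 2 * (1 + Real.log n) < (eps (d := 2) A : ℝ)) →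
      (IsPerm (d := 2) A ∧
        ∃ T : Fin 3 → Finset (Fin n), BoxEmpty (d := 2) A T ∧
          max C 1 * (n : ℝ) ^ 2 * (1 + Real.log (min (T 0).card (min (T 1).card (T 2).card) : ℕ)) <
            ∏ i, ((T i).card : ℝ)) := by
    rintro A ⟨hA, hlt⟩
    refine ⟨hA, ?_⟩
    have hx0 : 0 ≤ max C 1 * (n : ℝ) ^ 2 * (1 + Real.log n) := by
      have := hlog n
      positivity
    obtain ⟨T, hT, hv⟩ := exists_box_of_lt_eps A hx0 hlt
    refine ⟨T, hT, lt_of_le_of_lt ?_ hv⟩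
    have hle : min (T 0).card (min (T 1).card (T 2).card) ≤ n := by
      refine (min_le_left _ _).trans ?_
      simpa using card_le_univ (T 0)
    have hl : Real.log (min (T 0).card (min (T 1).card (T 2).card) : ℕ) ≤ Real.log n := by
      rcases Nat.eq_zero_or_pos (min (T 0).card (min (T 1).card (T 2).card)) with h0 | h0
      · rw [h0]
        simpa using hlog n
      · exact Real.log_le_log (by exact_mod_cast h0) (by exact_mod_cast hle)
    gcongr
  have h2 : Nat.card {A : (Fin 3 → Fin n) → Bool // IsPerm (d := 2) A ∧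
        max C 1 * (n : ℝ) ^ 2 * (1 + Real.log n) < (eps (d := 2) A : ℝ)} ≤
      Nat.card {A : (Fin 3 → Fin n) → Bool // IsPerm (d := 2) A ∧
        ∃ T : Fin 3 → Finset (Fin n), BoxEmpty (d := 2) A T ∧
          max C 1 * (n : ℝ) ^ 2 * (1 + Real.log (min (T 0).card (min (T 1).card (T 2).card) : ℕ)) <
            ∏ i, ((T i).card : ℝ)} :=
    Nat.card_le_card_of_injective (fun A => ⟨A.1, h1 A.1 A.2⟩)
      (fun A B h => Subtype.ext (by simpa using h))
  exact_mod_cast h2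

end Pool.Agent.Helper84.TL
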