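import Pool.Agent.Helper84.TL.Defs
import Pool.Agent.Helper30.TL.Order
import Pool.Agent.Helper82.TL.Beta
import Pool.Agent.Helper9.TL.Local
import Pool.Agent.Helper71.TL.LogS
import Pool.Agent.Helper70.TB.Bregman
import Pool.Agent.Helper70.TB.GFun

/-!
# Project TL, module H: the improved entropy bound for perfect matchings
-/

set_option autoImplicit false

namespace Pool.Agent.Helper84.TL

open Finset Pool.Agent.Lead.TB

namespace ImpAux

/-- The predictor. -/
noncomputable def om {n : ℕ} (G : Gr n) (U K : Finset (Fin n)) (v w : Fin n) : ℝ :=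
  (1 / (dg G U w : ℝ)) / ∑ w' ∈ G v ∩ K, 1 / (dg G U w' : ℝ)

theorem dg_pos {n : ℕ} {G : Gr n} {U : Finset (Fin n)} {v w : Fin n} (hv : v ∈ U) (hw : w ∈ G v) :
    (0 : ℝ) < dg G U w := by
  have : 0 < dg G U w := card_pos.2 ⟨v, mem_filter.2 ⟨hv, hw⟩⟩
  exact_mod_cast this

theorem om_pos {n : ℕ} (G : Gr n) (U K : Finset (Fin n)) (v w : Fin n) (hv : v ∈ U) (hw : w ∈ K)
    (hwG : w ∈ G v) : 0 < om G U K v w := by
  have h1 := dg_pos hv hwG
  refine div_pos (by positivity) (sum_pos (fun w' hw' => ?_) ⟨w, mem_inter.2 ⟨hwG, hw⟩⟩)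
  have h2 := dg_pos hv (mem_inter.1 hw').1
  positivity

theorem om_sum {n : ℕ} (G : Gr n) (U K : Finset (Fin n)) (v : Fin n) (_hv : v ∈ U) :
    ∑ w ∈ G v ∩ K, om G U K v w ≤ 1 := by
  simp only [om]
  rw [← sum_div]
  exact div_self_le_one _

theorem om_log {n : ℕ} {G : Gr n} {σ : Equiv.Perm (Fin n)} (hσ : σ ∈ pm G) (v : Fin n)
    (A : Finset (Fin n)) :
    Real.log (om G (insert v A) ((insert v A).image σ) v (σ v)) =
      -(Real.log (dg G (insert v A) (σ v)) + Real.log (Sv G σ (insert v A) v)) := by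
  have h1 : G v ∩ (insert v A).image σ = (G v).filter (fun w => σ.symm w ∈ insert v A) := by
    ext w
    simp only [mem_inter, mem_image, mem_filter, and_congr_right_iff]
    intro _
    constructor
    · rintro ⟨x, hx, rfl⟩
      simpa using hx
    · intro h
      exact ⟨σ.symm w, h, by simp⟩
  have h2 := dg_pos (G := G) (mem_insert_self v A) (h9_mem hσ v)
  have h3 := LogSAux.Sv_pos G σ hσ v A
  unfold om
  rw [h1]
  change Real.log (1 / (dg G (insert v A) (σ v) : ℝ) / Sv G σ (insert v A) v) = _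
  rw [Real.log_div (by positivity) h3.ne', Real.log_div one_ne_zero h2.ne', Real.log_one]
  ring

theorem sum_log_dg {n j : ℕ} {G : Gr n} (hj : 1 ≤ j) (hG : Reg j G) {σ : Equiv.Perm (Fin n)}
    (hσ : σ ∈ pm G) (v : Fin n) :
    ∑ A ∈ (univ.erase v).powerset, wt n A.card * Real.log (dg G (insert v A) (σ v)) =
      Real.log (g j) := by
  have hn : (univ.erase v).card + 1 = n := by
    rw [card_erase_of_mem (mem_univ v), card_univ, Fintype.card_fin]
    have := v.pos
    omega
  have h1 := wt_rank (h9P_sub (G := G) (σ := σ) (v := v)) (fun i => Real.log (1 + (i : ℝ)))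
  rw [hn, h9P_card hG hσ, show j - 1 + 1 = j by omega, LogSAux.sum_log] at h1
  rw [LogSAux.log_g]
  have h2 : (((j - 1 : ℕ) : ℝ) + 1) = j := by
    have : j - 1 + 1 = j := by omega
    exact_mod_cast this
  rw [h2] at h1
  rw [← h1]
  refine sum_congr rfl fun A hA => ?_
  rw [h9_dg hσ (mem_powerset.1 hA)]
  push_cast
  rfl

theorem log_g_le {j : ℕ} (hj : 1 ≤ j) :
    Real.log (g j) ≤ Real.log j - 1 + (Real.log j / 2 + 1) / j := by
  have h := GF.fact_up j hj
  have hj' : (0 : ℝ) < j := by exact_mod_cast hj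
  rw [LogSAux.log_g, one_div, inv_mul_le_iff₀ hj']
  have e : (j : ℝ) * (Real.log j - 1 + (Real.log j / 2 + 1) / j) =
      j * (Real.log j - 1) + (Real.log j / 2 + 1) := by
    field_simp
  rw [e]
  linarith

theorem cost_nonneg {n j : ℕ} (G : Gr n) (σ : Equiv.Perm (Fin n)) :
    0 ≤ ∑ v, (19 / (j : ℝ) ^ 2 * Bv G σ v + 96 * Real.log j / (j : ℝ) ^ 3 * Cv G σ v) := by
  refine sum_nonneg fun v _ => ?_
  have := Real.log_natCast_nonneg j
  positivity

end ImpAux

open ImpAux

/-- TL-H: the improved entropy bound. -/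
theorem imp {n j : ℕ} (hj : 1 ≤ j) (G : Gr n) (hG : Reg j G) :
    ∑ σ ∈ pm G, Real.exp (-cost j G σ) ≤ 1 := by
  have hj' : (0 : ℝ) < j := by exact_mod_cast hj
  rcases Nat.lt_or_ge j 4 with h4 | h4
  · have hb := bregman G
    have hprod : ∏ r, g (G r).card = Real.exp (n * Real.log (g j)) := by
      rw [prod_congr rfl fun r _ => by rw [hG.1 r], prod_const, card_univ, Fintype.card_fin,
        ← Real.exp_log (Breg.g_pos j), ← Real.exp_nat_mul, Real.log_exp]
    rw [hprod] at hb
    have hlj : Real.log j ≤ 6 := by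
      have h1 := Real.log_le_sub_one_of_pos hj'
      have h2 : (j : ℝ) ≤ 3 := by
        have : j ≤ 3 := by omega
        exact_mod_cast this
      linarith
    have hgj : Real.log (g j) ≤ Real.log j - 1 + 4 / j := by
      refine (log_g_le hj).trans ?_
      have : (Real.log j / 2 + 1) / j ≤ 4 / j := by
        gcongr
        linarith
      linarith
    have hcost : ∀ σ, Real.exp (-cost j G σ) ≤ Real.exp (-(n * Real.log (g j))) := by
      intro σ
      apply Real.exp_le_exp.2
      have h1 := cost_nonneg (j := j) G σ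
      have h2 : (n : ℝ) * Real.log (g j) ≤ n * (Real.log j - 1 + 4 / j) := by gcongr
      unfold cost
      linarith
    calc ∑ σ ∈ pm G, Real.exp (-cost j G σ)
        ≤ ∑ _σ ∈ pm G, Real.exp (-(n * Real.log (g j))) := sum_le_sum fun σ _ => hcost σ
      _ = (pm G).card * Real.exp (-(n * Real.log (g j))) := by rw [sum_const, nsmul_eq_mul]
      _ ≤ Real.exp (n * Real.log (g j)) * Real.exp (-(n * Real.log (g j))) := by gcongr
      _ = 1 := by rw [← Real.exp_add, add_neg_cancel, Real.exp_zero]
  · refine le_trans (sum_le_sum fun σ hσ => Real.exp_le_exp.2 ?_)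
      (order_avg G (om G) (om_pos G) (om_sum G))
    have h1 : ∀ v, -(Real.log j - 1 + 4 / j + (19 / (j : ℝ) ^ 2 * Bv G σ v +
        96 * Real.log j / (j : ℝ) ^ 3 * Cv G σ v)) ≤
        ∑ A ∈ (univ.erase v).powerset, wt n A.card *
          Real.log (om G (insert v A) ((insert v A).image σ) v (σ v)) := by
      intro v
      have h2 := log_Sv h4 G hG σ hσ v
      have h3 := sum_log_dg hj hG hσ v
      have h5 := log_g_le hj
      have h6 : ∑ A ∈ (univ.erase v).powerset, wt n A.card *
          Real.log (om G (insert v A) ((insert v A).image σ) v (σ v)) =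
          -(∑ A ∈ (univ.erase v).powerset, wt n A.card * Real.log (dg G (insert v A) (σ v)) +
          ∑ A ∈ (univ.erase v).powerset, wt n A.card * Real.log (Sv G σ (insert v A) v)) := by
        rw [← sum_add_distrib, ← sum_neg_distrib]
        refine sum_congr rfl fun A _ => ?_
        rw [om_log hσ]
        ring
      rw [h6, h3]
      have e : (Real.log j / 2 + 1) / j = Real.log j / j / 2 + 1 / j := by
        field_simp
      rw [e] at h5
      have e2 : (2 : ℝ) / j = 2 * (1 / j) := by ring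
      have e4 : (4 : ℝ) / j = 4 * (1 / j) := by ring
      rw [e2] at h2
      rw [e4]
      linarith
    calc -cost j G σ = ∑ v : Fin n, -(Real.log j - 1 + 4 / j + (19 / (j : ℝ) ^ 2 * Bv G σ v +
        96 * Real.log j / (j : ℝ) ^ 3 * Cv G σ v)) := by
          rw [sum_neg_distrib, sum_add_distrib, sum_const, card_univ, Fintype.card_fin,
            nsmul_eq_mul]
          rfl
      _ ≤ _ := sum_le_sum fun v _ => h1 v

end Pool.Agent.Helper84.TL
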