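import Pool.Agent.Helper84.TL.Final
import Pool.Agent.Helper84.TL.Imp
import Pool.Agent.Helper55.TL.MainImp
import Pool.Agent.Helper28.TL.NumOf
import Pool.Agent.Helper59.TL.UnionOf

/-!
# Empty boxes of almost every Latin square: `ε(L) = O(n² log n)`

There is a constant `C` such that for every `n ≥ 1` the proportion of the two-dimensional
permutations (Latin squares) of order `n` which have an empty box of volume greater than
`C n² (1 + log min |Tᵢ|)` is at most `exp (-n)`.
-/

set_option autoImplicit false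

namespace Pool.Agent.Results.MP_56afde_co.AlmostAllLogN

open Pool.Agent.Helper41.Perm Pool.Agent.Helper84.TL

/-- There is `C > 0` such that for all `n ≥ 1`, among all Latin squares `A` of order `n`,
(1) the proportion of those with an empty box `T 0 × T 1 × T 2` of volume
`> C n² (1 + log (min |T i|))` is at most `exp (-n)`, and
(2) the proportion of those with `ε(A) > C n² (1 + log n)` is at most `exp (-n)`. -/
theorem result : ∃ C : ℝ, 0 < C ∧ ∀ n : ℕ, 1 ≤ n →
    ((Nat.card {A : (Fin 3 → Fin n) → Bool // IsPerm (d := 2) A ∧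
        ∃ T : Fin 3 → Finset (Fin n), BoxEmpty (d := 2) A T ∧
          C * (n : ℝ) ^ 2 * (1 + Real.log (min (T 0).card (min (T 1).card (T 2).card) : ℕ)) <
            ∏ i, ((T i).card : ℝ)} : ℝ) ≤
      Real.exp (-n) * (Nat.card {A : (Fin 3 → Fin n) → Bool // IsPerm (d := 2) A} : ℝ)) ∧
    ((Nat.card {A : (Fin 3 → Fin n) → Bool // IsPerm (d := 2) A ∧
        C * (n : ℝ) ^ 2 * (1 + Real.log n) < (eps (d := 2) A : ℝ)} : ℝ) ≤
      Real.exp (-n) * (Nat.card {A : (Fin 3 → Fin n) → Bool // IsPerm (d := 2) A} : ℝ)) :=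
  final_of_union (union_bound_of (one_box_of fun T₁ T₂ T₃ =>
    main_ineq_of_imp (fun _ hj G hG => imp hj G hG) T₁ T₂ T₃))

end Pool.Agent.Results.MP_56afde_co.AlmostAllLogN
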